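import Pool.Agent.Y554.SN.Stm
import Pool.Agent.H389R2.NS.D4

/-! The integrated two-layer four-arm probability, sharp form: `S_NSS → S_A42S`
(adaptation of `Pool.Agent.Y554.DP.A42`). Project SN of helper554, part SN-A42. -/

set_option autoImplicit false

namespace Pool.Agent.Y532.SN

open H974 H12S H985T H389NS Finset Pool.Agent.Y554.DP Pool.Agent.Y554.SN

/-- D3, sharp. -/
theorem pair_boundS (hns : S_NSS) :
    ∃ C c : ℝ, 0 < C ∧ 0 < c ∧ ∀ (L m r ρ : ℕ), 2 ≤ L → 1 ≤ r → 8 * r ≤ ρ →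
    64 * ρ ≤ m → ∀ (σ σ' : Bool) (k k' : ℤ), |2 * (r:ℤ) * k| ≤ (L * m : ℕ) + (r:ℤ) →
    |2 * (r:ℤ) * k'| ≤ (L * m : ℕ) + (r:ℤ) → ∀ x : ℝ, 0 ≤ x → x ≤ 1 →
      (∫ y in (0:ℝ)..x, ∑ e ∈ boxE (m / 4), P2 (fun _ => y) (SR L m)
          (fun F => Sev L m r ρ σ (2 * r * k) σ' (2 * r * k') e ↑F)
          (fun F => Sev L m r ρ σ (2 * r * k) σ' (2 * r * k') e ↑F)) ≤ 4 ∧
      (x < 1 →
        (∫ y in (0:ℝ)..x, ∑ e ∈ boxE (m / 4), P2 (fun _ => y) (SR L m)
          (fun F => Sev L m r ρ σ (2 * r * k) σ' (2 * r * k') e ↑F)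
          (fun F => Sev L m r ρ σ (2 * r * k) σ' (2 * r * k') e ↑F)) ≤
            C * ((1 - x) * (m:ℝ) ^ (3 / 4 : ℝ)) ^ (-c)) := by
  obtain ⟨C, c, hC, hc, hNS⟩ := hns
  refine ⟨4 * C, c, by positivity, hc, ?_⟩
  intro L m r ρ hL hr hρ hm σ σ' k k' hk hk' x hx0 hx1
  obtain ⟨p, S, O, I, J, I', J', hD, hSub, hDis, hR, hO, hZ, hPv⟩ :=
    env_rect hL hr hρ hm σ σ' k k' hk hk'
  have hV : boxE m ⊆ SR L m := d3_boxE_sub hL
  have hB : boxE (m / 4) ⊆ boxE m := boxE_mono (Nat.div_le_self _ _)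
  have hm1 : 1 ≤ m := by omega
  have main : (∫ y in (0:ℝ)..x, ∑ e ∈ boxE (m / 4), P2 (fun _ => y) (SR L m)
          (fun F => Sev L m r ρ σ (2 * r * k) σ' (2 * r * k') e ↑F)
          (fun F => Sev L m r ρ σ (2 * r * k) σ' (2 * r * k') e ↑F)) ≤
      4 * ∑ T ∈ (boxE m).powerset.filter (fun T => ¬ Disjoint T (boxE (m / 4))),
        sp p S (boxE m) (fC I J) T * x ^ T.card := by
    refine d3_int (h := fun e y => P2 (fun _ => y) (SR L m)
          (fun F => Sev L m r ρ σ (2 * r * k) σ' (2 * r * k') e ↑F)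
          (fun F => Sev L m r ρ σ (2 * r * k) σ' (2 * r * k') e ↑F)) ?_ hx0 ?_ ?_
    · intro T _
      exact d3_sp_nonneg hD.ok _ _ _ _
    · intro e _
      exact P2_cont (fun y _ => y) (fun _ => continuous_id) _ _ _
    · intro e he y hy0 hy1
      exact d3_point hDis hSub hR hO hZ hV (hB he)
        (fun F hF hS => hPv e (hV (hB he)) F hF hS) hy0 (hy1.trans hx1)
  refine ⟨main.trans ?_, fun hx => main.trans ?_⟩
  · have h1 : ∑ T ∈ (boxE m).powerset.filter (fun T => ¬ Disjoint T (boxE (m / 4))),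
        sp p S (boxE m) (fC I J) T * x ^ T.card ≤ 1 := by
      refine le_trans ?_ (d3_sum_le_one hD.ok hD.sub hD.fair I J)
      refine le_trans (Finset.sum_le_sum (g := fun T => sp p S (boxE m) (fC I J) T) ?_) ?_
      · intro T _
        have := pow_le_one₀ hx0 hx1 (n := T.card)
        have h2 := d3_sp_nonneg hD.ok S (boxE m) (fC I J) T
        nlinarith
      · exact Finset.sum_le_sum_of_subset_of_nonneg (Finset.filter_subset _ _)
          (fun T _ _ => d3_sp_nonneg hD.ok _ _ _ _)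
    linarith
  · have h1 := hNS m hm1 p S I J I' J' hD x hx0 hx
    have h2 : ∑ T ∈ (boxE m).powerset.filter (fun T => ¬ Disjoint T (boxE (m / 4))),
        sp p S (boxE m) (fC I J) T * x ^ T.card ≤
        ∑ T ∈ (boxE m).powerset.filter (fun T => ¬ Disjoint T (boxE (m / 2))),
        sp p S (boxE m) (fC I J) T * x ^ T.card := by
      apply Finset.sum_le_sum_of_subset_of_nonneg
      · intro T hT
        rw [Finset.mem_filter] at hT ⊢
        refine ⟨hT.1, fun hd => hT.2 ?_⟩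
        exact Finset.disjoint_of_subset_right (boxE_mono (by omega)) hd
      · intro T _ _
        exact mul_nonneg (d3_sp_nonneg hD.ok _ _ _ _) (pow_nonneg hx0 _)
    nlinarith

open D4w in
/-- One step of the recursion. -/
theorem stepS (hns : S_NSS) : ∃ (L M : ℕ) (C c : ℝ), 2 ≤ L ∧ 512 ≤ M ∧ 0 < C ∧ 0 < c ∧ ∀ m : ℕ, M ≤ m →
    ∀ x : ℝ, 0 ≤ x → x ≤ 1 → ∀ j : ℕ, 4 * L * m ≤ j → j ≤ 4 * L * (m + 1) →
      gsq x j ≤ C + 3 / 5 * gsq x (m / 8) ∧
      (x < 1 → gsq x j ≤ C * ((1 - x) * (m:ℝ) ^ (3 / 4 : ℝ)) ^ (-c) + 3 / 5 * gsq x (m / 8)) := by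
  obtain ⟨L, M1, M2, N, K, hL, hM1, hM2, hK, HX⟩ := two_exit
  obtain ⟨C, c, hC, hc, HP⟩ := pair_boundS hns
  set Q : ℝ := (2 * (2 * (N:ℝ) + 1)) ^ 2 with hQ
  have hQ0 : 0 < Q := by positivity
  have hLp : (0:ℝ) < L := by exact_mod_cast (by omega : 0 < L)
  refine ⟨L, M2, 80 * (L:ℝ) ^ 2 * K * Q * (4 + C), c, hL, by omega, by positivity, hc, ?_⟩
  intro m hm x h0 h1 j hj1 hj2
  have hm512 : 512 ≤ m := by omega
  have hM2pos : 0 < M2 := by omega
  have hM1pos : 0 < M1 := by omega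
  have hr : 1 ≤ m / M2 := (Nat.one_le_div_iff hM2pos).mpr hm
  have hrρ : 8 * (m / M2) ≤ m / M1 := by
    rw [Nat.le_div_iff_mul_le hM1pos]
    calc 8 * (m / M2) * M1 = (8 * M1) * (m / M2) := by ring
      _ ≤ M2 * (m / M2) := Nat.mul_le_mul_right _ hM2
      _ ≤ m := Nat.mul_div_le m M2
  have hρm : 64 * (m / M1) ≤ m := by
    calc 64 * (m / M1) ≤ M1 * (m / M1) := Nat.mul_le_mul_right _ hM1
      _ ≤ m := Nat.mul_div_le m M1
  -- the sums of the separated events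
  set SV : ((Bool × ℤ) × (Bool × ℤ)) → ℝ → ℝ := fun p y =>
    ∑ e ∈ boxE (m / 4), P2 (fun _ => y) (SR L m)
          (fun F => Sev L m (m / M2) (m / M1) p.1.1 (2 * (m / M2 : ℕ) * p.1.2) p.2.1
            (2 * (m / M2 : ℕ) * p.2.2) e ↑F)
          (fun F => Sev L m (m / M2) (m / M1) p.1.1 (2 * (m / M2 : ℕ) * p.1.2) p.2.1
            (2 * (m / M2 : ℕ) * p.2.2) e ↑F) with hSV
  have hSVc : ∀ p, Continuous (SV p) := by
    intro p
    rw [hSV]
    exact continuous_finsetSum _ (fun e _ => P2_cont (fun y _ => y) (fun _ => continuous_id) _ _ _)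
  set D : ℝ := ((boxE (m / 4)).card : ℝ) * (1 / (4096 * (L:ℝ) ^ 2)) with hD
  have hD0 : 0 ≤ D := by positivity
  have hpt : ∀ y ∈ Set.Icc (0:ℝ) x, (2 * ((m / 4 : ℕ) : ℝ)) ^ 2 * a42 y (4 * L * m) ≤
      K * (∑ p ∈ prs L m (m / M2) N, SV p y) + D * a42 y (m / 8) := by
    intro y hy
    have hy1 : y ≤ 1 := hy.2.trans h1
    refine (a42_sum_ge hy.1 hy1 hL (by omega)).trans ?_
    refine (Finset.sum_le_sum (fun e he => HX m hm y hy.1 hy1 e he)).trans (le_of_eq ?_)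
    rw [Finset.sum_add_distrib, Finset.sum_const, nsmul_eq_mul, ← Finset.mul_sum,
      Finset.sum_comm, hD, hSV]
    ring
  have hint : (2 * ((m / 4 : ℕ) : ℝ)) ^ 2 * (∫ y in (0:ℝ)..x, a42 y (4 * L * m)) ≤
      K * (∑ p ∈ prs L m (m / M2) N, ∫ y in (0:ℝ)..x, SV p y) +
        D * (∫ y in (0:ℝ)..x, a42 y (m / 8)) := by
    have hi1 : IntervalIntegrable (fun y => K * (∑ p ∈ prs L m (m / M2) N, SV p y))
        MeasureTheory.volume 0 x :=
      (continuous_const.mul (continuous_finsetSum _ (fun p _ => hSVc p))).intervalIntegrable _ _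
    have hi2 : IntervalIntegrable (fun y => D * a42 y (m / 8)) MeasureTheory.volume 0 x :=
      (continuous_const.mul (a42_cont _)).intervalIntegrable _ _
    have hi0 : IntervalIntegrable (fun y => (2 * ((m / 4 : ℕ) : ℝ)) ^ 2 * a42 y (4 * L * m))
        MeasureTheory.volume 0 x :=
      (continuous_const.mul (a42_cont (4 * L * m))).intervalIntegrable 0 x
    have h : (∫ y in (0:ℝ)..x, (2 * ((m / 4 : ℕ) : ℝ)) ^ 2 * a42 y (4 * L * m)) ≤
        ∫ y in (0:ℝ)..x, (K * (∑ p ∈ prs L m (m / M2) N, SV p y) + D * a42 y (m / 8)) :=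
      intervalIntegral.integral_mono_on h0 hi0 (hi1.add hi2) hpt
    rw [intervalIntegral.integral_add hi1 hi2, intervalIntegral.integral_const_mul,
      intervalIntegral.integral_const_mul, intervalIntegral.integral_const_mul,
      intervalIntegral.integral_finsetSum
        (fun p _ => (hSVc p).intervalIntegrable _ _)] at h
    exact h
  have main : ∀ H : ℝ, 0 ≤ H → (∀ p ∈ prs L m (m / M2) N, (∫ y in (0:ℝ)..x, SV p y) ≤ H) →
      gsq x j ≤ 80 * (L:ℝ) ^ 2 * K * Q * H + 3 / 5 * gsq x (m / 8) := by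
    intro H hH hp
    have hsum : (∑ p ∈ prs L m (m / M2) N, ∫ y in (0:ℝ)..x, SV p y) ≤ Q * H := by
      calc (∑ p ∈ prs L m (m / M2) N, ∫ y in (0:ℝ)..x, SV p y)
          ≤ ∑ _p ∈ prs L m (m / M2) N, H := Finset.sum_le_sum hp
        _ = ((prs L m (m / M2) N).card : ℝ) * H := by rw [Finset.sum_const, nsmul_eq_mul]
        _ ≤ Q * H := mul_le_mul_of_nonneg_right (card_prs L m (m / M2) N) hH
    set n : ℝ := ((m / 4 : ℕ) : ℝ) with hn
    set i : ℝ := ((m / 8 : ℕ) : ℝ) with hi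
    have hn1 : (m:ℝ) ≤ 4 * n + 3 := by
      have : m ≤ 4 * (m / 4) + 3 := by omega
      rw [hn]
      exact_mod_cast this
    have hn128 : 128 ≤ n := by
      have : 128 ≤ m / 4 := by omega
      rw [hn]
      exact_mod_cast this
    have hi64 : 64 ≤ i := by
      have : 64 ≤ m / 8 := by omega
      rw [hi]
      exact_mod_cast this
    have hi1 : (m:ℝ) + 1 ≤ 8 * (i + 1) := by
      have : m + 1 ≤ 8 * (m / 8 + 1) := by omega
      rw [hi]
      exact_mod_cast this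
    have hmR : (512:ℝ) ≤ m := by exact_mod_cast hm512
    set X := ∫ y in (0:ℝ)..x, a42 y (4 * L * m) with hX
    set Z := ∫ y in (0:ℝ)..x, a42 y (m / 8) with hZ
    have hX0 : 0 ≤ X := int_nonneg h0 h1 _
    have hZ0 : 0 ≤ Z := int_nonneg h0 h1 _
    have hcard : D ≤ 2 * (2 * n + 1) ^ 2 * (1 / (4096 * (L:ℝ) ^ 2)) :=
      mul_le_mul_of_nonneg_right (card_boxE2 (m / 4)) (by positivity)
    have hX1 : (2 * n) ^ 2 * X ≤ K * (Q * H) + 2 * (2 * n + 1) ^ 2 * (1 / (4096 * (L:ℝ) ^ 2)) * Z := by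
      refine hint.trans ?_
      exact add_le_add (mul_le_mul_of_nonneg_left hsum hK.le) (mul_le_mul_of_nonneg_right hcard hZ0)
    have hjR : (j:ℝ) ≤ 4 * L * (m + 1) := by exact_mod_cast hj2
    have h4L : 1 ≤ 4 * L * m := by
      have : 0 < L * m := Nat.mul_pos (by omega) (by omega)
      nlinarith
    have hG : gsq x j ≤ (4 * L * (m + 1)) ^ 2 * X := by
      unfold gsq
      refine mul_le_mul ?_ (int_anti h0 h1 h4L hj1) (int_nonneg h0 h1 j) (by positivity)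
      exact pow_le_pow_left₀ (by positivity) hjR 2
    have hn2 : (0:ℝ) < (2 * n) ^ 2 := by positivity
    -- first factor
    have hf1 : ((m:ℝ) + 1) ^ 2 ≤ 5 * (2 * n) ^ 2 := by nlinarith
    have hf2 : ((m:ℝ) + 1) ^ 2 * (2 * n + 1) ^ 2 ≤ 384 / 5 * ((2 * n) ^ 2 * i ^ 2) := by
      have g1 : (m:ℝ) + 1 ≤ 65 / 8 * i := by linarith
      have g2 : 2 * n + 1 ≤ 257 / 256 * (2 * n) := by linarith
      have g3 : ((m:ℝ) + 1) ^ 2 ≤ (65 / 8 * i) ^ 2 := pow_le_pow_left₀ (by positivity) g1 2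
      have g4 : (2 * n + 1) ^ 2 ≤ (257 / 256 * (2 * n)) ^ 2 := pow_le_pow_left₀ (by positivity) g2 2
      calc ((m:ℝ) + 1) ^ 2 * (2 * n + 1) ^ 2 ≤ (65 / 8 * i) ^ 2 * (257 / 256 * (2 * n)) ^ 2 :=
            mul_le_mul g3 g4 (by positivity) (by positivity)
        _ = (65 / 8) ^ 2 * (257 / 256) ^ 2 * ((2 * n) ^ 2 * i ^ 2) := by ring
        _ ≤ 384 / 5 * ((2 * n) ^ 2 * i ^ 2) :=
            mul_le_mul_of_nonneg_right (by norm_num) (by positivity)
    -- conclusion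
    have hfin : (2 * n) ^ 2 * gsq x j ≤ (2 * n) ^ 2 *
        (80 * (L:ℝ) ^ 2 * K * Q * H + 3 / 5 * (i ^ 2 * Z)) := by
      calc (2 * n) ^ 2 * gsq x j ≤ (2 * n) ^ 2 * ((4 * L * (m + 1)) ^ 2 * X) :=
            mul_le_mul_of_nonneg_left hG hn2.le
        _ = (4 * L * (m + 1)) ^ 2 * ((2 * n) ^ 2 * X) := by ring
        _ ≤ (4 * L * (m + 1)) ^ 2 * (K * (Q * H) +
              2 * (2 * n + 1) ^ 2 * (1 / (4096 * (L:ℝ) ^ 2)) * Z) :=
            mul_le_mul_of_nonneg_left hX1 (by positivity)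
        _ = 16 * (L:ℝ) ^ 2 * K * Q * H * ((m:ℝ) + 1) ^ 2 +
              1 / 128 * (((m:ℝ) + 1) ^ 2 * (2 * n + 1) ^ 2) * Z := by
            field_simp
            ring
        _ ≤ 16 * (L:ℝ) ^ 2 * K * Q * H * (5 * (2 * n) ^ 2) +
              1 / 128 * (384 / 5 * ((2 * n) ^ 2 * i ^ 2)) * Z := by
            apply add_le_add
            · exact mul_le_mul_of_nonneg_left hf1 (by positivity)
            · exact mul_le_mul_of_nonneg_right
                (mul_le_mul_of_nonneg_left hf2 (by norm_num)) hZ0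
        _ = (2 * n) ^ 2 * (80 * (L:ℝ) ^ 2 * K * Q * H + 3 / 5 * (i ^ 2 * Z)) := by ring
    have := le_of_mul_le_mul_left hfin hn2
    exact this
  have hmem : ∀ p ∈ prs L m (m / M2) N,
      |2 * ((m / M2 : ℕ):ℤ) * p.1.2| ≤ (L * m : ℕ) + ((m / M2 : ℕ):ℤ) ∧
      |2 * ((m / M2 : ℕ):ℤ) * p.2.2| ≤ (L * m : ℕ) + ((m / M2 : ℕ):ℤ) := by
    intro p hp
    unfold prs at hp
    rw [Finset.mem_filter] at hp
    exact hp.2
  constructor
  · refine (main 4 (by norm_num) ?_).trans ?_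
    · intro p hp
      obtain ⟨p1, p2⟩ := hmem p hp
      exact (HP L m (m / M2) (m / M1) hL hr hrρ hρm p.1.1 p.2.1 p.1.2 p.2.2 p1 p2 x h0 h1).1
    · have : 0 ≤ 80 * (L:ℝ) ^ 2 * K * Q * C := by positivity
      linarith
  · intro hx
    have hu : 0 ≤ ((1 - x) * (m:ℝ) ^ (3 / 4 : ℝ)) ^ (-c) :=
      Real.rpow_nonneg (mul_nonneg (by linarith) (Real.rpow_nonneg (by positivity) _)) _
    refine (main (C * ((1 - x) * (m:ℝ) ^ (3 / 4 : ℝ)) ^ (-c)) (mul_nonneg hC.le hu) ?_).trans ?_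
    · intro p hp
      obtain ⟨p1, p2⟩ := hmem p hp
      exact (HP L m (m / M2) (m / M1) hL hr hrρ hρm p.1.1 p.2.1 p.1.2 p.2.2 p1 p2 x h0 h1).2 hx
    · have : 0 ≤ 80 * (L:ℝ) ^ 2 * K * Q * 4 * ((1 - x) * (m:ℝ) ^ (3 / 4 : ℝ)) ^ (-c) :=
        mul_nonneg (by positivity) hu
      linarith

open D4w in
/-- **SN-A42.** -/
theorem a42S (hns : S_NSS) : S_A42S := by
  obtain ⟨L, M, C, c, hL, hM, hC, hc, HS⟩ := stepS hns
  have hLp : (0:ℝ) < L := by exact_mod_cast (by omega : 0 < L)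
  have hL2 : (2:ℝ) ≤ L := by exact_mod_cast hL
  have hMp : (512:ℝ) ≤ M := by exact_mod_cast hM
  -- first claim
  set J : ℝ := 4 * L * M with hJ
  have hJ1 : 1 ≤ J := by nlinarith
  set B : ℝ := 2 * J ^ 2 + 5 / 2 * C with hB
  have hB0 : 0 < B := by positivity
  have first : ∀ x : ℝ, 0 ≤ x → x ≤ 1 → ∀ j : ℕ, 1 ≤ j → gsq x j ≤ B := by
    intro x h0 h1 j
    induction j using Nat.strong_induction_on with
    | _ j ih =>
      intro hj
      by_cases hjJ : 4 * L * M ≤ j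
      · obtain ⟨s1, s2, s3, s4, s5⟩ := scale hL hM hjJ
        have h2 := (HS _ s1 x h0 h1 j s2 s3).1
        have h3 := ih _ s5 s4
        have : 0 ≤ J ^ 2 := by positivity
        linarith
      · have h2 := gsq_le h0 h1 j
        have h3 : (j:ℝ) ≤ J := by
          have : j ≤ 4 * L * M := by omega
          rw [hJ]
          exact_mod_cast this
        have h4 : (j:ℝ) ^ 2 ≤ J ^ 2 := pow_le_pow_left₀ (by positivity) h3 2
        linarith
  -- the exponent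
  have h64 : (1:ℝ) < 64 * L := by linarith
  obtain ⟨γ, hγ, hγ2⟩ : ∃ γ : ℝ, 0 < γ ∧ (64 * (L:ℝ)) ^ (3 / 4 * γ) = 4 / 3 := by
    refine ⟨4 / 3 * (Real.log (4 / 3) / Real.log (64 * L)),
      mul_pos (by norm_num) (div_pos (Real.log_pos (by norm_num)) (Real.log_pos h64)), ?_⟩
    have e : (3 / 4 * (4 / 3 * (Real.log (4 / 3) / Real.log (64 * (L:ℝ))))) =
        Real.log (4 / 3) / Real.log (64 * L) := by ring
    rw [e, Real.rpow_def_of_pos (by linarith), mul_div_cancel₀ _ (Real.log_pos h64).ne',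
      Real.exp_log (by norm_num)]
  obtain ⟨c1, hc1⟩ : ∃ c1 : ℝ, c1 = min c γ := ⟨_, rfl⟩
  have hc10 : 0 < c1 := by rw [hc1]; exact lt_min hc hγ
  have hc1c : c1 ≤ c := by rw [hc1]; exact min_le_left _ _
  have hc1γ : c1 ≤ γ := by rw [hc1]; exact min_le_right _ _
  have hL1 : (64 * (L:ℝ)) ^ (3 / 4 * c1) ≤ 4 / 3 := by
    rw [← hγ2]
    exact Real.rpow_le_rpow_of_exponent_le h64.le (by linarith)
  obtain ⟨K0, hK0⟩ : ∃ K0 : ℝ, K0 = J ^ (3 / 4 : ℝ) := ⟨_, rfl⟩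
  have hK1 : 1 ≤ K0 := by rw [hK0]; exact Real.one_le_rpow hJ1 (by norm_num)
  have hK0p : 0 < K0 := by linarith
  obtain ⟨D, hD⟩ : ∃ D : ℝ, D = (64 * (L:ℝ)) ^ (3 / 4 * c) := ⟨_, rfl⟩
  have hD0 : 0 < D := by rw [hD]; exact Real.rpow_pos_of_pos (by linarith) _
  obtain ⟨A, hA⟩ : ∃ A : ℝ, A = B * K0 ^ c1 + 5 * (C * D) := ⟨_, rfl⟩
  have hKc : 1 ≤ K0 ^ c1 := Real.one_le_rpow hK1 hc10.le
  have hBK : B ≤ B * K0 ^ c1 := le_mul_of_one_le_right hB0.le hKc
  have hCD : 0 < C * D := mul_pos hC hD0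
  have hBA : B ≤ A := by linarith
  have hA0 : 0 < A := by linarith
  -- second claim
  have second : ∀ x : ℝ, 0 ≤ x → x < 1 → ∀ j : ℕ, 1 ≤ j →
      gsq x j ≤ A * ((1 - x) * (j:ℝ) ^ (3 / 4 : ℝ)) ^ (-c1) := by
    intro x h0 h1 j
    have hh : 0 < 1 - x := by linarith
    induction j using Nat.strong_induction_on with
    | _ j ih =>
      intro hj
      have hjp : (0:ℝ) < j := by exact_mod_cast hj
      have hj34 : 0 < (j:ℝ) ^ (3 / 4 : ℝ) := Real.rpow_pos_of_pos hjp _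
      obtain ⟨u, hu⟩ : ∃ u : ℝ, u = (1 - x) * (j:ℝ) ^ (3 / 4 : ℝ) := ⟨_, rfl⟩
      have hu0 : 0 < u := by rw [hu]; exact mul_pos hh hj34
      rw [← hu]
      have huc : 0 < u ^ (-c1) := Real.rpow_pos_of_pos hu0 _
      by_cases huK : u ≤ K0
      · have h2 : K0 ^ (-c1) ≤ u ^ (-c1) :=
          Real.rpow_le_rpow_of_nonpos hu0 huK (by linarith)
        have h3 : K0 ^ c1 * K0 ^ (-c1) = 1 := by
          rw [← Real.rpow_add hK0p, add_neg_cancel, Real.rpow_zero]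
        calc gsq x j ≤ B := first x h0 h1.le j hj
          _ = B * (K0 ^ c1 * K0 ^ (-c1)) := by rw [h3, mul_one]
          _ = (B * K0 ^ c1) * K0 ^ (-c1) := by ring
          _ ≤ A * u ^ (-c1) := mul_le_mul (by linarith) h2 (Real.rpow_nonneg hK0p.le _) hA0.le
      · push Not at huK
        have hu1 : 1 ≤ u := by linarith
        have hjJ : 4 * L * M ≤ j := by
          by_contra hcon
          have h3 : (j:ℝ) ≤ J := by
            have : j ≤ 4 * L * M := by omega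
            rw [hJ]
            exact_mod_cast this
          have h4 : (j:ℝ) ^ (3 / 4 : ℝ) ≤ K0 := by
            rw [hK0]
            exact Real.rpow_le_rpow hjp.le h3 (by norm_num)
          have h5 : u ≤ (j:ℝ) ^ (3 / 4 : ℝ) := by
            rw [hu]
            exact mul_le_of_le_one_left hj34.le (by linarith)
          linarith
        obtain ⟨s1, s2, s3, s4, s5⟩ := scale hL hM hjJ
        set m := j / (4 * L) with hm
        have hm512 : 512 ≤ m := by omega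
        have hmR : (512:ℝ) ≤ m := by exact_mod_cast hm512
        have s3R : (j:ℝ) ≤ 4 * L * (m + 1) := by exact_mod_cast s3
        have h2 := (HS m s1 x h0 h1.le j s2 s3).2 h1
        have h3 := ih _ s5 s4
        set i : ℝ := ((m / 8 : ℕ) : ℝ) with hi
        have hi1 : (1:ℝ) ≤ i := by rw [hi]; exact_mod_cast s4
        have hi8 : (m:ℝ) + 1 ≤ 16 * i := by
          have : m + 1 ≤ 16 * (m / 8) := by omega
          rw [hi]
          exact_mod_cast this
        have him : i ≤ (m:ℝ) := by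
          have : m / 8 ≤ m := Nat.div_le_self _ _
          rw [hi]
          exact_mod_cast this
        have hji : (j:ℝ) ≤ 64 * L * i := by
          calc (j:ℝ) ≤ 4 * L * (m + 1) := s3R
            _ ≤ 4 * L * (16 * i) := mul_le_mul_of_nonneg_left hi8 (by positivity)
            _ = 64 * L * i := by ring
        have hi0 : 0 < i := by linarith
        have h64p : (0:ℝ) < 64 * L := by linarith
        -- `u / (64 L)^(3/4) ≤ u i`
        obtain ⟨W, hW⟩ : ∃ W : ℝ, W = (64 * (L:ℝ)) ^ (3 / 4 : ℝ) := ⟨_, rfl⟩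
        have hW0 : 0 < W := by rw [hW]; exact Real.rpow_pos_of_pos h64p _
        have hui : u ≤ W * ((1 - x) * i ^ (3 / 4 : ℝ)) := by
          have h6 : (j:ℝ) ^ (3 / 4 : ℝ) ≤ W * i ^ (3 / 4 : ℝ) := by
            rw [hW, ← Real.mul_rpow h64p.le hi0.le]
            exact Real.rpow_le_rpow hjp.le hji (by norm_num)
          calc u = (1 - x) * (j:ℝ) ^ (3 / 4 : ℝ) := hu
            _ ≤ (1 - x) * (W * i ^ (3 / 4 : ℝ)) := mul_le_mul_of_nonneg_left h6 hh.le
            _ = W * ((1 - x) * i ^ (3 / 4 : ℝ)) := by ring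
        have hi34 : 0 < (1 - x) * i ^ (3 / 4 : ℝ) := mul_pos hh (Real.rpow_pos_of_pos hi0 _)
        have him34 : (1 - x) * i ^ (3 / 4 : ℝ) ≤ (1 - x) * (m:ℝ) ^ (3 / 4 : ℝ) :=
          mul_le_mul_of_nonneg_left (Real.rpow_le_rpow hi0.le him (by norm_num)) hh.le
        have key : ∀ a : ℝ, 0 < a → ((1 - x) * i ^ (3 / 4 : ℝ)) ^ (-a) ≤ W ^ a * u ^ (-a) := by
          intro a ha
          have h6 : (W * ((1 - x) * i ^ (3 / 4 : ℝ))) ^ (-a) ≤ u ^ (-a) :=
            Real.rpow_le_rpow_of_nonpos hu0 hui (by linarith)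
          rw [Real.mul_rpow hW0.le hi34.le] at h6
          have h7 : W ^ a * W ^ (-a) = 1 := by
            rw [← Real.rpow_add hW0, add_neg_cancel, Real.rpow_zero]
          calc ((1 - x) * i ^ (3 / 4 : ℝ)) ^ (-a)
              = W ^ a * W ^ (-a) * ((1 - x) * i ^ (3 / 4 : ℝ)) ^ (-a) := by rw [h7, one_mul]
            _ = W ^ a * (W ^ (-a) * ((1 - x) * i ^ (3 / 4 : ℝ)) ^ (-a)) := by ring
            _ ≤ W ^ a * u ^ (-a) := mul_le_mul_of_nonneg_left h6 (Real.rpow_nonneg hW0.le _)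
        have hWc : W ^ c = D := by rw [hW, hD, ← Real.rpow_mul h64p.le]
        have hWc1 : W ^ c1 ≤ 4 / 3 := by rw [hW, ← Real.rpow_mul h64p.le]; exact hL1
        have h7 : ((1 - x) * (m:ℝ) ^ (3 / 4 : ℝ)) ^ (-c) ≤ D * u ^ (-c1) := by
          calc ((1 - x) * (m:ℝ) ^ (3 / 4 : ℝ)) ^ (-c) ≤ ((1 - x) * i ^ (3 / 4 : ℝ)) ^ (-c) :=
                Real.rpow_le_rpow_of_nonpos hi34 him34 (by linarith)
            _ ≤ W ^ c * u ^ (-c) := key c hc
            _ = D * u ^ (-c) := by rw [hWc]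
            _ ≤ D * u ^ (-c1) := mul_le_mul_of_nonneg_left
                (Real.rpow_le_rpow_of_exponent_le hu1 (by linarith)) hD0.le
        have h8 : ((1 - x) * i ^ (3 / 4 : ℝ)) ^ (-c1) ≤ 4 / 3 * u ^ (-c1) :=
          (key c1 hc10).trans (mul_le_mul_of_nonneg_right hWc1 huc.le)
        have h9 : C * ((1 - x) * (m:ℝ) ^ (3 / 4 : ℝ)) ^ (-c) ≤ C * (D * u ^ (-c1)) :=
          mul_le_mul_of_nonneg_left h7 hC.le
        have h10 : gsq x (m / 8) ≤ A * (4 / 3 * u ^ (-c1)) :=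
          h3.trans (mul_le_mul_of_nonneg_left h8 hA0.le)
        have h11 : C * D * 5 ≤ A := by
          have : 0 ≤ B * K0 ^ c1 := by linarith
          linarith
        have h12 : C * D * 5 * u ^ (-c1) ≤ A * u ^ (-c1) :=
          mul_le_mul_of_nonneg_right h11 huc.le
        calc gsq x j ≤ C * ((1 - x) * (m:ℝ) ^ (3 / 4 : ℝ)) ^ (-c) + 3 / 5 * gsq x (m / 8) := h2
          _ ≤ C * (D * u ^ (-c1)) + 3 / 5 * (A * (4 / 3 * u ^ (-c1))) := by linarith
          _ ≤ A * u ^ (-c1) := by linarith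
  refine ⟨A, c1, hA0, hc10, ?_⟩
  intro k hk x h0 h1
  constructor
  · have := first x h0 h1.le k hk
    unfold gsq at this
    linarith
  · have := second x h0 h1 k hk
    unfold gsq at this
    exact this

end Pool.Agent.Y532.SN
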